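import Mathlib
import Pool.Agent.LibKomlos64.Round

set_option autoImplicit false

/-!
# The Komlós bound for vectors with locally sparse supports

The incidence graph of `v_1, ..., v_n` in `ℝ^d` joins vector `i` to coordinate `j` if `v i j ≠ 0`. If
any `k` vectors and any `k` coordinates span at most `w * k` edges, then signs with value at most
`2 * √w` exist. The proof is an iterative rounding: at every stage some `l` vectors are not yet rounded
and the coordinates on which they have mass greater than `√w` are fewer than `l`, by the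
Cauchy-Schwarz inequality.
-/

open Finset Classical

namespace Pool.Agent.Lib64Komlos.SparseSupport

/-- First item: every `k` vectors and `k` coordinates span at most `w * k` nonzero entries. Second
item: the nonzero entries are covered by two patterns, one with at most `s` entries for every
vector and one with at most `t` entries for every coordinate. -/
theorem result (n d : ℕ) (v : Fin n → Fin d → ℝ) (hv : ∀ i, ∑ j, (v i j) ^ 2 ≤ 1) :
    (∀ w : ℝ,
      (∀ (S : Finset (Fin n)) (T : Finset (Fin d)), S.card = T.card →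
        (((S ×ˢ T).filter (fun q => v q.1 q.2 ≠ 0)).card : ℝ) ≤ w * S.card) →
      ∃ ε : Fin n → ℝ, (∀ i, ε i = 1 ∨ ε i = -1) ∧ ∀ j, |∑ i, ε i * v i j| ≤ 2 * √w) ∧
    (∀ (s t : ℕ) (P Q : Fin n → Fin d → Prop),
      (∀ i j, v i j ≠ 0 → P i j ∨ Q i j) →
      (∀ i, (univ.filter (fun j => P i j)).card ≤ s) →
      (∀ j, (univ.filter (fun i => Q i j)).card ≤ t) →
      ∃ ε : Fin n → ℝ, (∀ i, ε i = 1 ∨ ε i = -1) ∧
        ∀ j, |∑ i, ε i * v i j| ≤ 2 * √((s : ℝ) + t)) := by
  have main : ∀ w : ℝ,
      (∀ (S : Finset (Fin n)) (T : Finset (Fin d)), S.card = T.card →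
        (((S ×ˢ T).filter (fun q => v q.1 q.2 ≠ 0)).card : ℝ) ≤ w * S.card) →
      ∃ ε : Fin n → ℝ, (∀ i, ε i = 1 ∨ ε i = -1) ∧ ∀ j, |∑ i, ε i * v i j| ≤ 2 * √w := by
    intro w hw
    apply Pool.Agent.LibKomlos64.exists_signs_sparse v hv w
    intro S T hST
    convert hw S T hST
  refine ⟨main, ?_⟩
  intro s t P Q hPQ hP hQ
  apply main
  intro S T hST
  have h1 : ((S ×ˢ T).filter (fun q => v q.1 q.2 ≠ 0)).card ≤
      ((S ×ˢ T).filter (fun q => P q.1 q.2)).card
      + ((S ×ˢ T).filter (fun q => Q q.1 q.2)).card := by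
    refine le_trans (card_le_card ?_) (card_union_le _ _)
    intro q hq
    rw [mem_union, mem_filter, mem_filter]
    rw [mem_filter] at hq
    rcases hPQ q.1 q.2 hq.2 with h | h
    · exact Or.inl ⟨hq.1, h⟩
    · exact Or.inr ⟨hq.1, h⟩
  have h2 : ((S ×ˢ T).filter (fun q => P q.1 q.2)).card ≤ S.card * s := by
    rw [card_filter, sum_product]
    calc ∑ i ∈ S, ∑ j ∈ T, (if P i j then 1 else 0) ≤ ∑ i ∈ S, s := by
          apply sum_le_sum
          intro i _
          rw [← card_filter]
          exact (card_le_card (filter_subset_filter _ (subset_univ T))).trans (hP i)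
      _ = S.card * s := by simp
  have h3 : ((S ×ˢ T).filter (fun q => Q q.1 q.2)).card ≤ T.card * t := by
    rw [card_filter, sum_product_right]
    calc ∑ j ∈ T, ∑ i ∈ S, (if Q i j then 1 else 0) ≤ ∑ j ∈ T, t := by
          apply sum_le_sum
          intro j _
          rw [← card_filter]
          exact (card_le_card (filter_subset_filter _ (subset_univ S))).trans (hQ j)
      _ = T.card * t := by simp
  have h4 : ((S ×ˢ T).filter (fun q => v q.1 q.2 ≠ 0)).card ≤ (s + t) * S.card := by
    rw [← hST] at h3
    calc _ ≤ _ := h1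
      _ ≤ S.card * s + S.card * t := add_le_add h2 h3
      _ = (s + t) * S.card := by ring
  exact_mod_cast h4

end Pool.Agent.Lib64Komlos.SparseSupport
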